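import Mathlib

/-!
# Coefficients of the auxiliary form

For a prime `p`, an integer `m` and a splitting `n + e + 1 = p`, the integers
`c s = (-1)^s C(m p + n, s) Q s`, where
`Q s = ∏_{k < m} ∏_{i < e} (s - (k p + n + 1 + i)) / e!`,
vanish when `s` modulo `p` exceeds `n` and annihilate all polynomials of degree less than
`(m + 1)(n + 1) - 1`.
-/

namespace H5FT

open Finset Nat

/-- Integer valued binomial coefficient. -/
theorem exists_binom (z : ℤ) (e B : ℕ) (h1 : z ≤ B) (h2 : (e : ℤ) - 1 - z ≤ B) :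
    ∃ c : ℤ, c * (e ! : ℤ) = ∏ i ∈ range e, (z - i) ∧ |c| ≤ (B.choose e : ℤ) := by
  rcases le_or_gt 0 z with hz | hz
  · obtain ⟨x, rfl⟩ := Int.eq_ofNat_of_zero_le hz
    refine ⟨(x.choose e : ℤ), ?_, ?_⟩
    · rcases lt_or_ge x e with hx | hx
      · rw [Nat.choose_eq_zero_of_lt hx]
        symm
        rw [Nat.cast_zero, zero_mul]
        exact prod_eq_zero (mem_range.mpr hx) (by simp)
      · rw [← Nat.cast_mul, mul_comm, ← Nat.descFactorial_eq_factorial_mul_choose,
          Nat.descFactorial_eq_prod_range, Nat.cast_prod]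
        refine prod_congr rfl fun i hi => ?_
        have := mem_range.mp hi
        rw [Nat.cast_sub (by omega)]
    · rw [Nat.abs_cast]
      exact_mod_cast Nat.choose_le_choose e (by exact_mod_cast h1)
  · obtain ⟨y, hy⟩ := Int.eq_ofNat_of_zero_le (show (0 : ℤ) ≤ (e : ℤ) - 1 - z by omega)
    refine ⟨(-1) ^ e * (y.choose e : ℤ), ?_, ?_⟩
    · have hye : e ≤ y := by omega
      rw [mul_assoc, ← Nat.cast_mul, mul_comm (y.choose e),
        ← Nat.descFactorial_eq_factorial_mul_choose, Nat.descFactorial_eq_prod_range,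
        Nat.cast_prod, ← prod_range_reflect]
      rw [← card_range e, ← prod_const, card_range, ← prod_mul_distrib]
      refine prod_congr rfl fun i hi => ?_
      have := mem_range.mp hi
      rw [Nat.cast_sub (by omega)]
      have h3 : ((e - 1 - i : ℕ) : ℤ) = (e : ℤ) - 1 - i := by omega
      rw [h3]
      linarith
    · rw [abs_mul, abs_pow, abs_neg, abs_one, one_pow, one_mul, Nat.abs_cast]
      exact_mod_cast Nat.choose_le_choose e (by omega)

/-- The integer valued polynomial `Q`. -/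
theorem exists_Q (p m n e : ℕ) (hp : n + e + 1 = p) :
    ∃ Q : ℕ → ℤ, (∀ s, Q s * (e ! : ℤ) ^ m =
        ∏ k ∈ range m, ∏ i ∈ range e, ((s : ℤ) - (k * p + n + 1 : ℕ) - i)) ∧
      ∀ s, s ≤ m * p + n → |Q s| ≤ (((m * p).choose e : ℕ) : ℤ) ^ m := by
  have key : ∀ s k : ℕ, ∃ c : ℤ, c * (e ! : ℤ) =
      ∏ i ∈ range e, ((s : ℤ) - (k * p + n + 1 : ℕ) - i) ∧
      (s ≤ m * p + n → k < m → |c| ≤ ((m * p).choose e : ℤ)) := by
    intro s k
    by_cases h : s ≤ m * p + n ∧ k < m
    · obtain ⟨c, h1, h2⟩ := exists_binom ((s : ℤ) - (k * p + n + 1 : ℕ)) e (m * p)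
        (by have := h.1; push_cast; nlinarith [h.1])
        (by
          have h3 : (k + 1) * p ≤ m * p := Nat.mul_le_mul_right p h.2
          push_cast
          have h4 : ((k : ℤ) + 1) * p ≤ m * p := by exact_mod_cast h3
          have h5 : (n : ℤ) + e + 1 = p := by exact_mod_cast hp
          nlinarith)
      exact ⟨c, h1, fun _ _ => h2⟩
    · set z : ℤ := (s : ℤ) - (k * p + n + 1 : ℕ) with hz
      obtain ⟨c, h1, _⟩ := exists_binom z e (z.natAbs + e) (by omega) (by omega)
      exact ⟨c, h1, fun h3 h4 => absurd ⟨h3, h4⟩ h⟩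
  choose c hc1 hc2 using key
  refine ⟨fun s => ∏ k ∈ range m, c s k, fun s => ?_, fun s hs => ?_⟩
  · have : (e ! : ℤ) ^ m = ∏ _k ∈ range m, (e ! : ℤ) := by rw [prod_const, card_range]
    rw [this, ← prod_mul_distrib]
    exact prod_congr rfl fun k _ => hc1 s k
  · rw [abs_prod]
    calc ∏ k ∈ range m, |c s k| ≤ ∏ _k ∈ range m, ((m * p).choose e : ℤ) :=
          prod_le_prod (fun k _ => abs_nonneg _) fun k hk => hc2 s k hs (mem_range.mp hk)
      _ = _ := by rw [prod_const, card_range]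

end H5FT
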