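import Pool.Agent.H5.FT.Fd

/-!
# The main term of the auxiliary form is small
-/

namespace H5FT

open Finset Nat

theorem pow_expand (p d N s : ℕ) (hs : s ≤ N) :
    ((p : ℤ) + d) ^ s * (p : ℤ) ^ (N - s) =
      ∑ j ∈ range (N + 1), (s.choose j : ℤ) * ((d : ℤ) ^ j * (p : ℤ) ^ (N - j)) := by
  rw [add_comm (p : ℤ), add_pow, sum_mul]
  have h1 : range (s + 1) ⊆ range (N + 1) := range_subset_range.mpr (by omega)
  rw [← sum_subset h1 (fun j _ hj => ?_)]
  · refine sum_congr rfl fun j hj => ?_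
    have hj' : j ≤ s := Nat.lt_succ_iff.mp (mem_range.mp hj)
    have h2 : N - j = (s - j) + (N - s) := by omega
    rw [h2, pow_add]
    ring
  · have hj' : s < j := by
      by_contra h
      exact hj (mem_range.mpr (by omega))
    rw [Nat.choose_eq_zero_of_lt hj']
    simp

theorem sum_choose_le (N : ℕ) :
    ∑ j ∈ range (N + 1), ∑ s ∈ range (N + 1), ((N.choose s : ℤ) * (s.choose j : ℤ)) = 3 ^ N := by
  rw [sum_comm]
  have h1 : ∀ s ∈ range (N + 1), ∑ j ∈ range (N + 1), ((N.choose s : ℤ) * (s.choose j : ℤ)) =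
      2 ^ s * 1 ^ (N - s) * (N.choose s : ℤ) := by
    intro s hs
    have hs' : s ≤ N := Nat.lt_succ_iff.mp (mem_range.mp hs)
    have h2 : ∑ j ∈ range (N + 1), (s.choose j : ℤ) = 2 ^ s := by
      have h3 : range (s + 1) ⊆ range (N + 1) := range_subset_range.mpr (by omega)
      rw [← sum_subset h3 (fun j _ hj => ?_)]
      · exact_mod_cast Nat.sum_range_choose s
      · have hj' : s < j := by
          by_contra h
          exact hj (mem_range.mpr (by omega))
        rw [Nat.choose_eq_zero_of_lt hj']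
        simp
    rw [← mul_sum, h2]
    ring
  rw [sum_congr rfl h1, ← add_pow]
  norm_num

/-- The bound for `D`. -/
theorem D_bound (p d N J : ℕ) (R : ℤ) (hd : d ≤ p) (hJ : J ≤ N) (c : ℕ → ℤ)
    (hc : ∀ s, s ≤ N → |c s| ≤ (N.choose s : ℤ) * R)
    (h0 : ∀ j, j < J → ∑ s ∈ range (N + 1), c s * (s.choose j : ℤ) = 0) (hR : 0 ≤ R) :
    |∑ s ∈ range (N + 1), c s * (((p : ℤ) + d) ^ s * (p : ℤ) ^ (N - s))| ≤
      R * 3 ^ N * ((d : ℤ) ^ J * (p : ℤ) ^ (N - J)) := by
  have h1 : ∑ s ∈ range (N + 1), c s * (((p : ℤ) + d) ^ s * (p : ℤ) ^ (N - s)) =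
      ∑ j ∈ range (N + 1), ((d : ℤ) ^ j * (p : ℤ) ^ (N - j)) *
        ∑ s ∈ range (N + 1), c s * (s.choose j : ℤ) := by
    have h2 : ∀ s ∈ range (N + 1), c s * (((p : ℤ) + d) ^ s * (p : ℤ) ^ (N - s)) =
        ∑ j ∈ range (N + 1), c s * ((s.choose j : ℤ) * ((d : ℤ) ^ j * (p : ℤ) ^ (N - j))) := by
      intro s hs
      rw [pow_expand p d N s (Nat.lt_succ_iff.mp (mem_range.mp hs)), mul_sum]
    rw [sum_congr rfl h2, sum_comm]
    refine sum_congr rfl fun j _ => ?_
    rw [mul_sum]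
    exact sum_congr rfl fun s _ => by ring
  rw [h1]
  calc |∑ j ∈ range (N + 1), ((d : ℤ) ^ j * (p : ℤ) ^ (N - j)) *
        ∑ s ∈ range (N + 1), c s * (s.choose j : ℤ)|
      ≤ ∑ j ∈ range (N + 1), |((d : ℤ) ^ j * (p : ℤ) ^ (N - j)) *
        ∑ s ∈ range (N + 1), c s * (s.choose j : ℤ)| := abs_sum_le_sum_abs _ _
    _ ≤ ∑ j ∈ range (N + 1), ((d : ℤ) ^ J * (p : ℤ) ^ (N - J)) *
        ∑ s ∈ range (N + 1), R * ((N.choose s : ℤ) * (s.choose j : ℤ)) := by
        refine sum_le_sum fun j hj => ?_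
        have hjN : j ≤ N := Nat.lt_succ_iff.mp (mem_range.mp hj)
        have hpos : 0 ≤ ∑ s ∈ range (N + 1), R * ((N.choose s : ℤ) * (s.choose j : ℤ)) :=
          sum_nonneg fun s _ => by positivity
        rcases lt_or_ge j J with hjJ | hjJ
        · rw [h0 j hjJ, mul_zero, abs_zero]
          exact mul_nonneg (by positivity) hpos
        · rw [abs_mul, abs_of_nonneg (by positivity : (0 : ℤ) ≤ (d : ℤ) ^ j * (p : ℤ) ^ (N - j))]
          refine mul_le_mul ?_ ?_ (abs_nonneg _) (by positivity)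
          · have h3 : (d : ℤ) ^ j = (d : ℤ) ^ J * (d : ℤ) ^ (j - J) := by
              rw [← pow_add]; congr 1; omega
            have h4 : (p : ℤ) ^ (N - J) = (p : ℤ) ^ (j - J) * (p : ℤ) ^ (N - j) := by
              rw [← pow_add]; congr 1; omega
            rw [h3, h4, mul_assoc]
            refine mul_le_mul_of_nonneg_left ?_ (by positivity)
            refine mul_le_mul_of_nonneg_right ?_ (by positivity)
            exact pow_le_pow_left₀ (by positivity) (by exact_mod_cast hd) _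
          · refine (abs_sum_le_sum_abs _ _).trans (sum_le_sum fun s hs => ?_)
            rw [abs_mul, Nat.abs_cast]
            calc |c s| * (s.choose j : ℤ) ≤ ((N.choose s : ℤ) * R) * (s.choose j : ℤ) :=
                  mul_le_mul_of_nonneg_right (hc s (Nat.lt_succ_iff.mp (mem_range.mp hs)))
                    (by positivity)
              _ = _ := by ring
    _ = R * 3 ^ N * ((d : ℤ) ^ J * (p : ℤ) ^ (N - J)) := by
        rw [← mul_sum]
        have h5 : ∑ j ∈ range (N + 1), ∑ s ∈ range (N + 1), R * ((N.choose s : ℤ) *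
            (s.choose j : ℤ)) = R * 3 ^ N := by
          rw [← sum_choose_le N, mul_sum]
          exact sum_congr rfl fun j _ => by rw [mul_sum]
        rw [h5]
        ring

theorem sum_abs_le (N : ℕ) (R : ℤ) (c : ℕ → ℤ)
    (hc : ∀ s, s ≤ N → |c s| ≤ (N.choose s : ℤ) * R) :
    ∑ s ∈ range (N + 1), |c s| ≤ R * 2 ^ N := by
  calc ∑ s ∈ range (N + 1), |c s| ≤ ∑ s ∈ range (N + 1), (N.choose s : ℤ) * R :=
        sum_le_sum fun s hs => hc s (Nat.lt_succ_iff.mp (mem_range.mp hs))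
    _ = R * 2 ^ N := by
        rw [← sum_mul, mul_comm]
        congr 1
        exact_mod_cast Nat.sum_range_choose N

end H5FT
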