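import Pool.Agent.H5.FT.Coef

/-!
# Finite differences, zeros and non-divisibility of the coefficients
-/

namespace H5FT

open Finset Nat Polynomial

/-- The polynomial behind `Q`. -/
noncomputable def Qp (p m n e : ℕ) : ℚ[X] :=
  ∏ k ∈ range m, ∏ i ∈ range e, (X - C (((k * p + n + 1 : ℕ) : ℚ) + i))

theorem natDegree_Qp (p m n e : ℕ) : (Qp p m n e).natDegree = m * e := by
  unfold Qp
  rw [natDegree_prod_of_monic _ _ fun k _ => monic_prod_of_monic _ _ fun i _ => monic_X_sub_C _]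
  have : ∀ k ∈ range m, (∏ i ∈ range e, (X - C (((k * p + n + 1 : ℕ) : ℚ) + i))).natDegree = e := by
    intro k _
    rw [natDegree_prod_of_monic _ _ fun i _ => monic_X_sub_C _,
      sum_congr rfl fun i _ => natDegree_X_sub_C _]
    simp
  rw [sum_congr rfl this]
  simp

theorem eval_Qp (p m n e s : ℕ) : (Qp p m n e).eval (s : ℚ) =
    ((∏ k ∈ range m, ∏ i ∈ range e, ((s : ℤ) - (k * p + n + 1 : ℕ) - i) : ℤ) : ℚ) := by
  unfold Qp
  rw [eval_prod, Int.cast_prod]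
  refine prod_congr rfl fun k _ => ?_
  rw [eval_prod, Int.cast_prod]
  refine prod_congr rfl fun i _ => ?_
  simp only [eval_sub, eval_X, eval_C]
  push_cast
  ring

/-- The coefficients `c s = (-1)^s C(N, s) Q s` annihilate all `C(s, j)` with
`m e + j < N`. -/
theorem sum_zero (p m n e : ℕ) (Q : ℕ → ℤ) (hQ : ∀ s, Q s * (e ! : ℤ) ^ m =
        ∏ k ∈ range m, ∏ i ∈ range e, ((s : ℤ) - (k * p + n + 1 : ℕ) - i))
    (N j : ℕ) (hj : m * e + j < N) :
    ∑ s ∈ range (N + 1), (-1 : ℤ) ^ s * (N.choose s : ℤ) * Q s * (s.choose j : ℤ) = 0 := by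
  have hdeg : (Qp p m n e * descPochhammer ℚ j).natDegree < N := by
    refine lt_of_le_of_lt natDegree_mul_le ?_
    rw [natDegree_Qp, descPochhammer_natDegree]
    exact hj
  have h0 := congrFun (Polynomial.fwdDiff_iter_eq_zero_of_degree_lt hdeg) 0
  rw [fwdDiff_iter_eq_sum_shift] at h0
  have he : ((e ! : ℚ) ^ m * (j ! : ℚ)) ≠ 0 := by positivity
  have h1 : ((e ! : ℚ) ^ m * (j ! : ℚ)) *
      ((∑ s ∈ range (N + 1), (-1 : ℤ) ^ s * (N.choose s : ℤ) * Q s * (s.choose j : ℤ) : ℤ) : ℚ)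
      = 0 := by
    have h2 : (-1 : ℚ) ^ N * ∑ k ∈ range (N + 1), ((-1 : ℤ) ^ (N - k) * N.choose k) •
        eval (0 + k • (1 : ℚ)) (Qp p m n e * descPochhammer ℚ j) = 0 := by
      rw [h0]; simp
    rw [mul_sum] at h2
    rw [← h2]
    push_cast
    rw [mul_sum]
    refine sum_congr rfl fun s hs => ?_
    have hs' : s ≤ N := Nat.lt_succ_iff.mp (mem_range.mp hs)
    rw [nsmul_eq_mul, mul_one, zero_add, eval_mul, eval_Qp, ← hQ,
      descPochhammer_eval_eq_descFactorial, Nat.descFactorial_eq_factorial_mul_choose,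
      zsmul_eq_mul]
    push_cast
    have h3 : (-1 : ℚ) ^ N * (-1) ^ (N - s) = (-1) ^ s := by
      have h4 : N = (N - s) + s := by omega
      have h5 : (-1 : ℚ) ^ N = (-1) ^ (N - s) * (-1) ^ s := by rw [← pow_add, ← h4]
      rw [h5, mul_right_comm, ← mul_pow]
      norm_num
    rw [← h3]
    ring
  have h6 := (mul_eq_zero.mp h1).resolve_left he
  exact_mod_cast h6

/-- `Q` vanishes on the gaps. -/
theorem Q_gap (p m n e : ℕ) (Q : ℕ → ℤ) (hQ : ∀ s, Q s * (e ! : ℤ) ^ m =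
        ∏ k ∈ range m, ∏ i ∈ range e, ((s : ℤ) - (k * p + n + 1 : ℕ) - i))
    (k i : ℕ) (hk : k < m) (hi : i < e) : Q (k * p + n + 1 + i) = 0 := by
  have h := hQ (k * p + n + 1 + i)
  have h1 : ∏ k' ∈ range m, ∏ i' ∈ range e,
      (((k * p + n + 1 + i : ℕ) : ℤ) - (k' * p + n + 1 : ℕ) - i') = 0 := by
    refine prod_eq_zero (mem_range.mpr hk) (prod_eq_zero (mem_range.mpr hi) ?_)
    push_cast
    ring
  rw [h1] at h
  have he : ((e ! : ℤ) ^ m) ≠ 0 := by positivity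
  exact (mul_eq_zero.mp h).resolve_right he

/-- `p` does not divide `Q n`. -/
theorem Q_not_dvd (p m n e : ℕ) (hp : p.Prime) (hpe : n + e + 1 = p) (Q : ℕ → ℤ)
    (hQ : ∀ s, Q s * (e ! : ℤ) ^ m =
        ∏ k ∈ range m, ∏ i ∈ range e, ((s : ℤ) - (k * p + n + 1 : ℕ) - i)) :
    ¬ (p : ℤ) ∣ Q n := by
  intro h
  have hpp : Prime (p : ℤ) := Nat.prime_iff_prime_int.mp hp
  have h1 : (p : ℤ) ∣ ∏ k ∈ range m, ∏ i ∈ range e, ((n : ℤ) - (k * p + n + 1 : ℕ) - i) := by
    rw [← hQ]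
    exact Dvd.dvd.mul_right h _
  obtain ⟨k, _, hk⟩ := (Prime.dvd_finset_prod_iff hpp _).mp h1
  obtain ⟨i, hi, hi'⟩ := (Prime.dvd_finset_prod_iff hpp _).mp hk
  have hie := mem_range.mp hi
  have h2 : (n : ℤ) - (k * p + n + 1 : ℕ) - i = -(p * k + ((i + 1 : ℕ) : ℤ)) := by
    push_cast; ring
  rw [h2, dvd_neg, Int.dvd_add_right (dvd_mul_right _ _)] at hi'
  have h3 : p ∣ i + 1 := by exact_mod_cast hi'
  exact absurd (Nat.le_of_dvd (Nat.succ_pos i) h3) (by omega)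

/-- `p` does not divide `C(m p + n, n)`. -/
theorem choose_not_dvd (p m n : ℕ) (hp : p.Prime) (hn : n < p) :
    ¬ p ∣ (m * p + n).choose n := by
  intro h
  have h1 : p ∣ (m * p + n).descFactorial n := by
    rw [Nat.descFactorial_eq_factorial_mul_choose]
    exact Dvd.dvd.mul_left h _
  rw [Nat.descFactorial_eq_prod_range] at h1
  obtain ⟨i, hi, hi'⟩ := (Prime.dvd_finset_prod_iff hp.prime _).mp h1
  have hin := mem_range.mp hi
  have h2 : m * p + n - i = m * p + (n - i) := by omega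
  rw [h2, Nat.dvd_add_right (dvd_mul_left p m)] at hi'
  exact absurd (Nat.le_of_dvd (by omega) hi') (by omega)

end H5FT
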