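import Pool.Agent.H5.FT.Log

/-!
# Power savings for `q ≤ p + p ^ β`
-/

namespace H5FT

open Finset Nat Filter

/-- Arithmetic core of the power saving. -/
theorem two_core (p d m g : ℕ) (β δ σ θ : ℝ) (hp : p.Prime) (hp3 : 3 ≤ p) (hd : 1 ≤ d)
    (hm : 1 ≤ m) (hg : 1 ≤ g)
    (hg1 : (g : ℤ) ∣ ((p : ℤ) + d) ^ p - 1) (hg2 : (g : ℤ) ∣ (p : ℤ) ^ (p + d) - 1)
    (hβ1 : β < 1) (hα : (1 - σ) * ((m + 1) * (1 - β)) = 1) (hσ0 : 0 < σ) (hσ1 : σ < 1)
    (hθ : θ = σ - m * δ)
    (hdβ : (d : ℝ) ≤ (p : ℝ) ^ β)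
    (c1 : 1 ≤ σ * p)
    (c2 : 2 * m * ((p : ℝ) ^ β / p) ≤ θ / 2)
    (c3 : 3 * ((m : ℝ) + 1) + m * (2 + Real.log m) + 1 ≤ θ / 2 * Real.log p) :
    Real.log g ≤ (1 - δ) * p * Real.log p := by
  have hp0 : (0 : ℝ) < p := by exact_mod_cast hp.pos
  have hp1 : (1 : ℝ) < p := by exact_mod_cast hp.one_lt
  have hd0 : (0 : ℝ) < d := by exact_mod_cast hd
  have hm0 : (0 : ℝ) < m := by exact_mod_cast hm
  have hL0 : 0 < Real.log p := Real.log_pos hp1
  set L := Real.log p with hL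
  have hLp : L ≤ p := (Real.log_le_sub_one_of_pos hp0).trans (by linarith)
  have hlogd : Real.log d ≤ β * L := by
    have := Real.log_le_log hd0 hdβ
    rwa [Real.log_rpow hp0] at this
  have hdp : d < p := by
    have h1 : (p : ℝ) ^ β < (p : ℝ) ^ (1 : ℝ) := Real.rpow_lt_rpow_of_exponent_lt hp1 hβ1
    rw [Real.rpow_one] at h1
    exact_mod_cast hdβ.trans_lt h1
  set e : ℕ := ⌊σ * p⌋₊ with he
  have he1 : 1 ≤ e := by
    rw [he]
    exact (Nat.one_le_floor_iff _).mpr c1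
  have hele : (e : ℝ) ≤ σ * p := Nat.floor_le (by positivity)
  have hegt : σ * p < e + 1 := Nat.lt_floor_add_one _
  have hep : e + 1 ≤ p := by
    have : (e : ℝ) < p :=
      lt_of_le_of_lt hele ((mul_lt_mul_of_pos_right hσ1 hp0).trans_eq (one_mul _))
    exact_mod_cast this
  have he0 : (0 : ℝ) < e := by exact_mod_cast he1
  set a : ℝ := (e : ℝ) / p with ha
  have ha0 : 0 < a := by positivity
  have haσ : a ≤ σ := by rw [ha, div_le_iff₀ hp0]; exact hele
  have haL : σ * L - 1 ≤ a * L := by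
    have h1 : σ - 1 / p ≤ a := by
      rw [ha, sub_le_iff_le_add, ← add_div, le_div_iff₀ hp0]
      exact hegt.le
    have h2 : (σ - 1 / p) * L ≤ a * L := mul_le_mul_of_nonneg_right h1 hL0.le
    have h3 : 1 / (p : ℝ) * L ≤ 1 := by
      rw [one_div, inv_mul_le_iff₀ hp0, mul_one]
      exact hLp
    have h4 : (σ - 1 / p) * L = σ * L - 1 / (p : ℝ) * L := by ring
    linarith
  set E : ℝ := 3 * ((m : ℝ) + 1) + 2 * ((d : ℝ) / p) * m * L +
      m * a * (1 + Real.log ((m : ℝ) / a)) with hE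
  have hE1 : m * a * (1 + Real.log ((m : ℝ) / a)) ≤ m * (2 + Real.log m) := by
    rw [mul_assoc]
    refine mul_le_mul_of_nonneg_left ?_ hm0.le
    rw [Real.log_div hm0.ne' ha0.ne']
    have h1 : -Real.log a ≤ 1 / a - 1 := by
      have := Real.log_le_sub_one_of_pos (show 0 < 1 / a by positivity)
      rwa [one_div, Real.log_inv, ← one_div] at this
    have h2 : a * (-Real.log a) ≤ 1 := by
      have h3 : a * (-Real.log a) ≤ a * (1 / a - 1) := mul_le_mul_of_nonneg_left h1 ha0.le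
      have h4 : a * (1 / a - 1) = 1 - a := by field_simp
      linarith
    have h5 : 0 ≤ Real.log m := Real.log_nonneg (by exact_mod_cast hm)
    have h6 : a * Real.log m ≤ 1 * Real.log m := mul_le_mul_of_nonneg_right (by linarith) h5
    have h7 : a * (1 + (Real.log m - Real.log a)) = a + a * Real.log m + a * (-Real.log a) := by
      ring
    linarith
  have hE2 : 2 * ((d : ℝ) / p) * m * L ≤ θ / 2 * L := by
    have h1 : 2 * ((d : ℝ) / p) * m ≤ 2 * m * ((p : ℝ) ^ β / p) := by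
      have h2 : (d : ℝ) / p ≤ (p : ℝ) ^ β / p := div_le_div_of_nonneg_right hdβ hp0.le
      calc 2 * ((d : ℝ) / p) * m = 2 * m * ((d : ℝ) / p) := by ring
        _ ≤ _ := mul_le_mul_of_nonneg_left h2 (by positivity)
    exact mul_le_mul_of_nonneg_right (h1.trans c2) hL0.le
  have hES : E + m * δ * L ≤ σ * L - 1 := by
    have h1 : θ * L = σ * L - m * δ * L := by rw [hθ]; ring
    rw [hE]
    linarith
  have hl1 : (1 - β) * L ≤ L - Real.log d := by linarith
  have key := master p d m e g hp hp3 hd hdp hm he1 hep hg hg1 hg2 a E (m * δ * L) ha hE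
    (by
      refine hES.trans ?_
      have h1 : σ * L ≤ (1 - a) * (((m : ℝ) + 1) * (L - Real.log d) - L) := by
        have h2 : ((m : ℝ) + 1) * ((1 - β) * L) - L ≤ ((m : ℝ) + 1) * (L - Real.log d) - L :=
          sub_le_sub_right (mul_le_mul_of_nonneg_left hl1 (by positivity)) _
        have h3 : σ * L = (1 - σ) * (((m : ℝ) + 1) * ((1 - β) * L) - L) := by
          have : (1 - σ) * (((m : ℝ) + 1) * ((1 - β) * L) - L) =
            ((1 - σ) * ((m + 1) * (1 - β))) * L - (1 - σ) * L := by ring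
          rw [this, hα]; ring
        have h4 : 0 ≤ ((m : ℝ) + 1) * ((1 - β) * L) - L := by
          have h5 : 0 < σ * L := by positivity
          rw [h3] at h5
          exact (pos_of_mul_pos_right h5 (by linarith)).le
        rw [h3]
        exact mul_le_mul (by linarith) h2 h4 (by linarith)
      linarith)
    (hES.trans haL)
  have h1 : m * Real.log g ≤ m * ((1 - δ) * p * L) := by
    calc m * Real.log g ≤ p * (m * L - m * δ * L) := key
      _ = m * ((1 - δ) * p * L) := by ring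
  exact le_of_mul_le_mul_left h1 hm0

/-- Power savings. -/
theorem part_two (m : ℕ) (β δ : ℝ) (hm : 1 ≤ m) (hβ : β < m / (m + 1))
    (hδ : δ < (1 - 1 / ((m + 1) * (1 - β))) / m) :
    ∃ P : ℕ, ∀ p d g : ℕ, p.Prime → P ≤ p → 1 ≤ d → (d : ℝ) ≤ (p : ℝ) ^ β → 1 ≤ g →
      (g : ℤ) ∣ ((p : ℤ) + d) ^ p - 1 → (g : ℤ) ∣ (p : ℤ) ^ (p + d) - 1 →
      Real.log g ≤ (1 - δ) * p * Real.log p := by
  have hm0 : (0 : ℝ) < m := by exact_mod_cast hm
  have hβ1 : β < 1 := hβ.trans (by rw [div_lt_one (by positivity)]; linarith)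
  have hβ' : 1 < (m + 1) * (1 - β) := by
    rw [lt_div_iff₀ (by positivity)] at hβ
    nlinarith
  set α : ℝ := 1 / ((m + 1) * (1 - β)) with hα
  have hα0 : 0 < α := by rw [hα]; positivity
  have hα1 : α < 1 := by rw [hα, div_lt_one (by linarith)]; exact hβ'
  set σ : ℝ := 1 - α with hσ
  set θ : ℝ := σ - m * δ with hθ
  have hθ0 : 0 < θ := by
    rw [lt_div_iff₀ hm0] at hδ
    rw [hθ]
    linarith
  have hσ0 : 0 < σ := by linarith
  have t1 : Tendsto (fun p : ℕ => σ * (p : ℝ)) atTop atTop :=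
    Tendsto.const_mul_atTop hσ0 tendsto_natCast_atTop_atTop
  have t3 : Tendsto (fun p : ℕ => θ / 2 * Real.log (p : ℝ)) atTop atTop :=
    Tendsto.const_mul_atTop (by positivity)
      (Real.tendsto_log_atTop.comp tendsto_natCast_atTop_atTop)
  have t2 : Tendsto (fun p : ℕ => 2 * m * ((p : ℝ) ^ β / p)) atTop (nhds (2 * m * 0)) := by
    refine Tendsto.const_mul _ ?_
    have h1 : Tendsto (fun p : ℕ => (p : ℝ) ^ (-(1 - β))) atTop (nhds 0) :=
      (tendsto_rpow_neg_atTop (by linarith)).comp tendsto_natCast_atTop_atTop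
    refine h1.congr' ?_
    filter_upwards [eventually_gt_atTop 0] with p hp
    have hp0 : (0 : ℝ) < p := by exact_mod_cast hp
    rw [neg_sub, Real.rpow_sub hp0, Real.rpow_one]
  rw [mul_zero] at t2
  have e1 := t1.eventually_ge_atTop 1
  have e2 := t2.eventually_le_const (show (0 : ℝ) < θ / 2 by positivity)
  have e3 := t3.eventually_ge_atTop (3 * ((m : ℝ) + 1) + m * (2 + Real.log m) + 1)
  obtain ⟨P, hP⟩ := eventually_atTop.mp ((e1.and e2).and (e3.and (eventually_ge_atTop 3)))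
  refine ⟨P, fun p d g hp hpP hd hdβ hg hg1 hg2 => ?_⟩
  obtain ⟨⟨k1, k2⟩, k3, k4⟩ := hP p hpP
  refine two_core p d m g β δ σ θ hp k4 hd hm hg hg1 hg2 hβ1 ?_ hσ0 (by linarith) hθ hdβ k1 k2 k3
  rw [hσ, sub_sub_cancel, hα]
  exact one_div_mul_cancel (by linarith)

end H5FT
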