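import Pool.Agent.H5.FT.PartOne
import Pool.Agent.H5.FT.PartTwo

/-!
# Natural number forms of the two parts
-/

namespace H5FT

open Finset Nat

theorem cast_dvd_of_dvd (p d g : ℕ) (hp : 1 ≤ p) (h1 : g ∣ (p + d) ^ p - 1)
    (h2 : g ∣ p ^ (p + d) - 1) :
    (g : ℤ) ∣ ((p : ℤ) + d) ^ p - 1 ∧ (g : ℤ) ∣ (p : ℤ) ^ (p + d) - 1 := by
  have k1 : 1 ≤ (p + d) ^ p := Nat.one_le_pow _ _ (by omega)
  have k2 : 1 ≤ p ^ (p + d) := Nat.one_le_pow _ _ (by omega)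
  have e1 : (((p + d) ^ p - 1 : ℕ) : ℤ) = ((p : ℤ) + d) ^ p - 1 := by
    rw [Nat.cast_sub k1]; push_cast; ring
  have e2 : ((p ^ (p + d) - 1 : ℕ) : ℤ) = (p : ℤ) ^ (p + d) - 1 := by
    rw [Nat.cast_sub k2]; push_cast; ring
  exact ⟨e1 ▸ Int.natCast_dvd_natCast.mpr h1, e2 ▸ Int.natCast_dvd_natCast.mpr h2⟩

/-- The quotients. -/
theorem quot_facts (p d : ℕ) (hp : 2 ≤ p) :
    ((p + d) ^ p - 1) / (p + d - 1) ∣ (p + d) ^ p - 1 ∧
    (p ^ (p + d) - 1) / (p - 1) ∣ p ^ (p + d) - 1 ∧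
    p ^ (p - 1) ≤ ((p + d) ^ p - 1) / (p + d - 1) := by
  have h1 : p + d - 1 ∣ (p + d) ^ p - 1 := by
    have := Nat.sub_dvd_pow_sub_pow (p + d) 1 p
    rwa [one_pow] at this
  have h2 : p - 1 ∣ p ^ (p + d) - 1 := by
    have := Nat.sub_dvd_pow_sub_pow p 1 (p + d)
    rwa [one_pow] at this
  refine ⟨Nat.div_dvd_of_dvd h1, Nat.div_dvd_of_dvd h2, ?_⟩
  rw [← Nat.geomSum_eq (by omega : 2 ≤ p + d) p]
  calc p ^ (p - 1) ≤ (p + d) ^ (p - 1) := Nat.pow_le_pow_left (Nat.le_add_right _ _) _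
    _ ≤ ∑ k ∈ range p, (p + d) ^ k :=
        single_le_sum (f := fun k => (p + d) ^ k) (fun _ _ => Nat.zero_le _)
          (mem_range.mpr (by omega))

/-- First part. -/
theorem fin_one (ε : ℝ) (hε : 0 < ε) (hε1 : ε ≤ 1) :
    ∃ P : ℕ, ∀ p q : ℕ, p.Prime → P ≤ p → p < q →
      ((q : ℝ) - p) * Real.log p ^ (1 + ε) ≤ p →
        (((q ^ p - 1).gcd (p ^ q - 1) : ℕ) : ℝ) ≤
          (p : ℝ) ^ p * (((q : ℝ) - p) / p) ^ (ε ^ 2 / 128 * p) ∧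
        ¬ (q ^ p - 1) / (q - 1) ∣ (p ^ q - 1) / (p - 1) := by
  obtain ⟨P, hP⟩ := part_one ε hε hε1
  refine ⟨P, fun p q hp hpP hpq hqL => ?_⟩
  obtain ⟨d, rfl⟩ := Nat.exists_eq_add_of_le hpq.le
  have hd : 1 ≤ d := by omega
  have hd0 : (0 : ℝ) < d := by exact_mod_cast hd
  have hp0 : (0 : ℝ) < p := by exact_mod_cast hp.pos
  have ed : (((p + d : ℕ) : ℝ) - p) = d := by push_cast; ring
  rw [ed] at hqL ⊢
  constructor
  · set g := ((p + d) ^ p - 1).gcd (p ^ (p + d) - 1) with hg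
    have hg1 : 1 ≤ g := by
      refine Nat.gcd_pos_of_pos_left _ ?_
      have : 1 < (p + d) ^ p := Nat.one_lt_pow hp.pos.ne' (by have := hp.two_le; omega)
      omega
    obtain ⟨k1, k2⟩ := cast_dvd_of_dvd p d g hp.one_le (Nat.gcd_dvd_left _ _)
      (Nat.gcd_dvd_right _ _)
    obtain ⟨h1, -⟩ := hP p d g hp hpP hd hqL hg1 k1 k2
    have hg0 : (0 : ℝ) < g := by exact_mod_cast hg1
    have h2 := Real.exp_le_exp.mpr h1
    rw [Real.exp_log hg0] at h2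
    refine h2.trans_eq ?_
    rw [Real.rpow_def_of_pos (by positivity), Real.log_div hd0.ne' hp0.ne',
      show (p : ℝ) ^ p = Real.exp (p * Real.log p) by rw [Real.exp_nat_mul, Real.exp_log hp0],
      ← Real.exp_add]
    congr 1
    ring
  · intro hdvd
    obtain ⟨f1, f2, f3⟩ := quot_facts p d hp.two_le
    set A := ((p + d) ^ p - 1) / (p + d - 1) with hA
    have hA1 : 1 ≤ A := (Nat.one_le_pow _ _ hp.pos).trans f3
    obtain ⟨k1, k2⟩ := cast_dvd_of_dvd p d A hp.one_le f1 (hdvd.trans f2)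
    obtain ⟨h1, h2⟩ := hP p d A hp hpP hd hqL hA1 k1 k2
    have h3 : ((p ^ (p - 1) : ℕ) : ℝ) ≤ A := by exact_mod_cast f3
    have h5 : (0 : ℝ) < ((p ^ (p - 1) : ℕ) : ℝ) := by exact_mod_cast pow_pos hp.pos (p - 1)
    have h4 := Real.log_le_log h5 h3
    push_cast at h4
    rw [Real.log_pow, Nat.cast_sub hp.one_le, Nat.cast_one] at h4
    linarith

/-- Second part. -/
theorem fin_two (m : ℕ) (β δ : ℝ) (hm : 1 ≤ m) (hβ : β < m / (m + 1))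
    (hδ : δ < (1 - 1 / ((m + 1) * (1 - β))) / m) :
    ∃ P : ℕ, ∀ p q : ℕ, p.Prime → P ≤ p → p < q → (q : ℝ) ≤ p + (p : ℝ) ^ β →
        (((q ^ p - 1).gcd (p ^ q - 1) : ℕ) : ℝ) ≤ (p : ℝ) ^ ((1 - δ) * p) := by
  obtain ⟨P, hP⟩ := part_two m β δ hm hβ hδ
  refine ⟨P, fun p q hp hpP hpq hqL => ?_⟩
  obtain ⟨d, rfl⟩ := Nat.exists_eq_add_of_le hpq.le
  have hd : 1 ≤ d := by omega
  have hp0 : (0 : ℝ) < p := by exact_mod_cast hp.pos
  have hdβ : (d : ℝ) ≤ (p : ℝ) ^ β := by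
    push_cast at hqL
    linarith
  set g := ((p + d) ^ p - 1).gcd (p ^ (p + d) - 1) with hg
  have hg1 : 1 ≤ g := by
    refine Nat.gcd_pos_of_pos_left _ ?_
    have : 1 < (p + d) ^ p := Nat.one_lt_pow hp.pos.ne' (by have := hp.two_le; omega)
    omega
  obtain ⟨k1, k2⟩ := cast_dvd_of_dvd p d g hp.one_le (Nat.gcd_dvd_left _ _)
    (Nat.gcd_dvd_right _ _)
  have h1 := hP p d g hp hpP hd hdβ hg1 k1 k2
  have hg0 : (0 : ℝ) < g := by exact_mod_cast hg1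
  have h2 := Real.exp_le_exp.mpr h1
  rw [Real.exp_log hg0] at h2
  refine h2.trans_eq ?_
  rw [Real.rpow_def_of_pos hp0]
  congr 1
  ring

end H5FT
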