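import Pool.Agent.H5.FT.Dbd

/-!
# The auxiliary form modulo common divisors

Every common divisor `g` of `q ^ p - 1` and `p ^ q - 1` satisfies `g ^ m ∣ G`, where `G` is not
divisible by `p`; this gives the explicit inequality `main_ineq`.
-/

namespace H5FT

open Finset Nat

theorem reindex (p m n e : ℕ) (hp : n + e + 1 = p) (f : ℕ → ℤ)
    (hf : ∀ k i, k < m → i < e → f (k * p + n + 1 + i) = 0) :
    ∑ s ∈ range (m * p + n + 1), f s =
      ∑ u ∈ range (m + 1), ∑ h ∈ range (n + 1), f (u * p + h) := by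
  induction m with
  | zero => simp
  | succ m ih =>
    rw [sum_range_succ _ (m + 1), ← ih fun k i hk hi => hf k i (by omega) hi]
    have h1 : (m + 1) * p + n + 1 = (m * p + n + 1) + (e + (n + 1)) := by
      rw [add_mul, ← hp]; ring
    rw [h1, sum_range_add]
    congr 1
    rw [sum_range_add, sum_eq_zero fun i hi => hf m i (by omega) (mem_range.mp hi), zero_add]
    refine sum_congr rfl fun h _ => ?_
    congr 1
    rw [add_mul, ← hp]; ring

theorem pow_diff (X Y : ℤ) (hX : 1 ≤ X) (hXY : X ≤ Y) (u v : ℕ) :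
    0 ≤ X ^ u * Y ^ v - (X - 1) ^ u * (Y - 1) ^ v ∧
      X ^ u * Y ^ v - (X - 1) ^ u * (Y - 1) ^ v ≤ ((u + v : ℕ) : ℤ) * Y ^ (u + v - 1) := by
  have hY : 1 ≤ Y := hX.trans hXY
  have hstep : ∀ (Z F P : ℤ) (k : ℕ), 1 ≤ Z → Z ≤ Y → 0 ≤ P → P ≤ Y ^ k → 0 ≤ F →
      F ≤ (k : ℤ) * Y ^ (k - 1) →
      0 ≤ Z * F + P ∧ Z * F + P ≤ ((k + 1 : ℕ) : ℤ) * Y ^ k := by
    intro Z F P k hZ hZY hP hPY hF hFk
    refine ⟨by positivity, ?_⟩
    have h1 : Z * F ≤ Y * ((k : ℤ) * Y ^ (k - 1)) :=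
      mul_le_mul hZY hFk hF (by omega)
    have h2 : Y * ((k : ℤ) * Y ^ (k - 1)) = (k : ℤ) * Y ^ k := by
      rcases Nat.eq_zero_or_pos k with rfl | hk
      · simp
      · obtain ⟨k', rfl⟩ := Nat.exists_eq_succ_of_ne_zero hk.ne'
        rw [Nat.succ_sub_one, pow_succ]
        ring
    push_cast
    linarith
  have hPle : ∀ u v : ℕ, 0 ≤ (X - 1) ^ u * (Y - 1) ^ v ∧
      (X - 1) ^ u * (Y - 1) ^ v ≤ Y ^ (u + v) := by
    intro u v
    have h1 : (X - 1) ^ u ≤ Y ^ u := pow_le_pow_left₀ (by omega) (by omega) _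
    have h2 : (Y - 1) ^ v ≤ Y ^ v := pow_le_pow_left₀ (by omega) (by omega) _
    have h3 : 0 ≤ (X - 1) ^ u := pow_nonneg (by omega) _
    have h4 : 0 ≤ (Y - 1) ^ v := pow_nonneg (by omega) _
    exact ⟨mul_nonneg h3 h4, by rw [pow_add]; exact mul_le_mul h1 h2 h4 (by positivity)⟩
  induction u with
  | zero =>
    induction v with
    | zero => simp
    | succ v ih =>
      have h := hstep Y (X ^ 0 * Y ^ v - (X - 1) ^ 0 * (Y - 1) ^ v) ((X - 1) ^ 0 * (Y - 1) ^ v)
        (0 + v) hY le_rfl (hPle 0 v).1 (hPle 0 v).2 ih.1 ih.2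
      have h1 : X ^ 0 * Y ^ (v + 1) - (X - 1) ^ 0 * (Y - 1) ^ (v + 1) =
          Y * (X ^ 0 * Y ^ v - (X - 1) ^ 0 * (Y - 1) ^ v) + (X - 1) ^ 0 * (Y - 1) ^ v := by
        ring
      rw [h1]
      exact h
  | succ u ih =>
    have h := hstep X (X ^ u * Y ^ v - (X - 1) ^ u * (Y - 1) ^ v) ((X - 1) ^ u * (Y - 1) ^ v)
      (u + v) hX hXY (hPle u v).1 (hPle u v).2 ih.1 ih.2
    have h1 : X ^ (u + 1) * Y ^ v - (X - 1) ^ (u + 1) * (Y - 1) ^ v =
        X * (X ^ u * Y ^ v - (X - 1) ^ u * (Y - 1) ^ v) + (X - 1) ^ u * (Y - 1) ^ v := by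
      ring
    rw [h1]
    have h2 : u + 1 + v = (u + v) + 1 := by ring
    rw [h2]
    exact h

theorem pow_swap (p d : ℕ) (hp : 3 ≤ p) : (p + d) ^ p ≤ p ^ (p + d) := by
  have hp0 : (0 : ℝ) < p := by positivity
  have h1 : (1 + (d : ℝ) / p) ^ p ≤ Real.exp d := by
    calc (1 + (d : ℝ) / p) ^ p ≤ (Real.exp ((d : ℝ) / p)) ^ p := by
          refine pow_le_pow_left₀ (by positivity) ?_ _
          rw [add_comm]
          exact Real.add_one_le_exp _
      _ = Real.exp d := by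
          rw [← Real.exp_nat_mul]
          congr 1
          field_simp
  have h2 : Real.exp d ≤ (p : ℝ) ^ d := by
    rw [← Real.exp_one_pow]
    refine pow_le_pow_left₀ (Real.exp_pos _).le ?_ _
    have h3 : (3 : ℝ) ≤ p := by exact_mod_cast hp
    linarith [Real.exp_one_lt_three]
  have h4 : ((p : ℝ) + d) ^ p ≤ (p : ℝ) ^ (p + d) := by
    have h5 : ((p : ℝ) + d) = p * (1 + (d : ℝ) / p) := by field_simp
    rw [h5, mul_pow, pow_add]
    exact mul_le_mul_of_nonneg_left (h1.trans h2) (by positivity)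
  exact_mod_cast h4

/-- The explicit inequality. -/
theorem main_ineq (p d m n e g : ℕ) (hp : p.Prime) (hp3 : 3 ≤ p) (hd : 1 ≤ d) (hdp : d < p)
    (hne : n + e + 1 = p) (hg1 : (g : ℤ) ∣ ((p : ℤ) + d) ^ p - 1)
    (hg2 : (g : ℤ) ∣ (p : ℤ) ^ (p + d) - 1) :
    (g : ℤ) ^ m ≤ (p : ℤ) ^ (d * m) * (((m * p).choose e : ℕ) : ℤ) ^ m *
      (3 ^ (m * p + n) * ((d : ℤ) ^ (m * p + n - m * e) * (p : ℤ) ^ (m * e)) +
        2 ^ (m * p + n) * (((p : ℤ) + d) ^ n * ((m : ℤ) * (p : ℤ) ^ ((p + d) * (m - 1))))) := by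
  obtain ⟨Q, hQ, hQb⟩ := exists_Q p m n e hne
  set R : ℤ := (((m * p).choose e : ℕ) : ℤ) ^ m with hR
  set N : ℕ := m * p + n with hN
  set c : ℕ → ℤ := fun s => (-1 : ℤ) ^ s * (N.choose s : ℤ) * Q s with hc
  set X : ℤ := ((p : ℤ) + d) ^ p with hX
  set Y : ℤ := (p : ℤ) ^ (p + d) with hY
  have hR0 : 0 ≤ R := by positivity
  have hme : m * e ≤ m * p := Nat.mul_le_mul_left m (by omega)
  have hpe : p = e + (n + 1) := by omega
  have hcb : ∀ s, s ≤ N → |c s| ≤ (N.choose s : ℤ) * R := by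
    intro s hs
    rw [hc]
    simp only
    rw [abs_mul, abs_mul, abs_pow, abs_neg, abs_one, one_pow, one_mul, Nat.abs_cast]
    exact mul_le_mul_of_nonneg_left (hQb s hs) (by positivity)
  have hc0 : ∀ j, j < N - m * e → ∑ s ∈ range (N + 1), c s * (s.choose j : ℤ) = 0 :=
    fun j hj => sum_zero p m n e Q hQ N j (by omega)
  have hD := D_bound p d N (N - m * e) R hdp.le (Nat.sub_le _ _) c hcb hc0 hR0
  set D : ℤ := ∑ s ∈ range (N + 1), c s * (((p : ℤ) + d) ^ s * (p : ℤ) ^ (N - s)) with hDdef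
  have hNme : N - (N - m * e) = m * e := by omega
  rw [hNme] at hD
  have hX1 : 1 ≤ X := by
    rw [hX]
    exact one_le_pow₀ (by have : (1 : ℤ) ≤ p := by exact_mod_cast hp.one_le
                          omega)
  have hXY : X ≤ Y := by
    rw [hX, hY]
    exact_mod_cast pow_swap p d hp3
  -- the form
  set G : ℤ := ∑ u ∈ range (m + 1), ∑ h ∈ range (n + 1), c (u * p + h) *
    ((((p : ℤ) + d) ^ h * (p : ℤ) ^ (n - h) * (p : ℤ) ^ (d * u)) *
      ((X - 1) ^ u * (Y - 1) ^ (m - u))) with hG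
  -- divisibility
  have hdvd : (g : ℤ) ^ m ∣ G := by
    refine dvd_sum fun u hu => dvd_sum fun h _ => ?_
    have hu' : u ≤ m := Nat.lt_succ_iff.mp (mem_range.mp hu)
    have h1 : (g : ℤ) ^ m = (g : ℤ) ^ u * (g : ℤ) ^ (m - u) := by rw [← pow_add]; congr 1; omega
    refine Dvd.dvd.mul_left (Dvd.dvd.mul_left ?_ _) _
    rw [h1]
    exact mul_dvd_mul (pow_dvd_pow_of_dvd hg1 u) (pow_dvd_pow_of_dvd hg2 (m - u))
  -- non-divisibility
  have hpp : Prime (p : ℤ) := Nat.prime_iff_prime_int.mp hp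
  have hnd : ¬ (p : ℤ) ∣ G := by
    intro hdv
    have h1 : (p : ℤ) ∣ c n * ((((p : ℤ) + d) ^ n) * (Y - 1) ^ m) := by
      rw [hG, sum_range_succ', sum_range_succ] at hdv
      simp only [zero_mul, zero_add, Nat.sub_self, pow_zero, mul_one, mul_zero, Nat.sub_zero,
        one_mul] at hdv
      rw [← add_assoc] at hdv
      refine (Int.dvd_add_right ?_).mp hdv
      refine dvd_add ?_ ?_
      · refine dvd_sum fun u _ => dvd_sum fun h _ => ?_
        refine Dvd.dvd.mul_left (Dvd.dvd.mul_right (Dvd.dvd.mul_left ?_ _) _) _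
        exact dvd_pow_self _ (Nat.mul_ne_zero (by omega) (by omega))
      · refine dvd_sum fun h hh => ?_
        have hh' := mem_range.mp hh
        refine Dvd.dvd.mul_left (Dvd.dvd.mul_right (Dvd.dvd.mul_left ?_ _) _) _
        exact dvd_pow_self _ (by omega)
    rcases hpp.dvd_or_dvd h1 with h2 | h2
    · have h3 : (p : ℤ) ∣ (-1 : ℤ) ^ n * (N.choose n : ℤ) * Q n := h2
      rcases hpp.dvd_or_dvd h3 with h4 | h4
      · rcases hpp.dvd_or_dvd h4 with h5 | h5
        · exact hpp.not_unit (isUnit_of_dvd_unit h5 ((isUnit_one.neg).pow n))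
        · exact choose_not_dvd p m n hp (by omega) (by exact_mod_cast h5)
      · exact Q_not_dvd p m n e hp hne Q hQ h4
    · rcases hpp.dvd_or_dvd h2 with h3 | h3
      · have h4 := hpp.dvd_of_dvd_pow h3
        rw [Int.dvd_add_right (dvd_refl _)] at h4
        have h5 : p ∣ d := by exact_mod_cast h4
        exact absurd (Nat.le_of_dvd (by omega) h5) (by omega)
      · have h4 := hpp.dvd_of_dvd_pow h3
        have h5 : (p : ℤ) ∣ Y := by rw [hY]; exact dvd_pow_self _ (by omega)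
        have h6 : (p : ℤ) ∣ 1 := by
          have := dvd_sub h5 h4
          simpa using this
        exact hpp.not_unit (isUnit_of_dvd_one h6)
  have hG0 : G ≠ 0 := fun h => hnd (h ▸ dvd_zero _)
  have hgm : (g : ℤ) ^ m ≤ |G| := by
    have := Int.le_of_dvd (abs_pos.mpr hG0) ((dvd_abs _ _).mpr hdvd)
    exact this
  -- comparison with D
  have hre : (p : ℤ) ^ (d * m) * D = ∑ u ∈ range (m + 1), ∑ h ∈ range (n + 1), c (u * p + h) *
    ((((p : ℤ) + d) ^ h * (p : ℤ) ^ (n - h) * (p : ℤ) ^ (d * u)) * (X ^ u * Y ^ (m - u))) := by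
    have h1 := reindex p m n e hne (fun s => (p : ℤ) ^ (d * m) *
      (c s * (((p : ℤ) + d) ^ s * (p : ℤ) ^ (N - s)))) (fun k i hk hi => by
        have h2 : c (k * p + n + 1 + i) = 0 := by
          rw [hc]
          simp only
          rw [Q_gap p m n e Q hQ k i hk hi, mul_zero]
        rw [h2]
        ring)
    rw [hDdef, mul_sum]
    rw [hN]
    rw [h1]
    refine sum_congr rfl fun u hu => sum_congr rfl fun h hh => ?_
    have hu' : u ≤ m := Nat.lt_succ_iff.mp (mem_range.mp hu)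
    have hh' : h ≤ n := Nat.lt_succ_iff.mp (mem_range.mp hh)
    obtain ⟨v, rfl⟩ := Nat.exists_eq_add_of_le hu'
    obtain ⟨k, rfl⟩ := Nat.exists_eq_add_of_le hh'
    have e1 : N - (u * p + h) = v * p + k := by
      rw [hN, add_mul]; omega
    rw [e1, Nat.add_sub_cancel_left, Nat.add_sub_cancel_left, hX, hY]
    ring
  have hdiff : |G - (p : ℤ) ^ (d * m) * D| ≤ (p : ℤ) ^ (d * m) * R *
      (2 ^ N * (((p : ℤ) + d) ^ n * ((m : ℤ) * (p : ℤ) ^ ((p + d) * (m - 1))))) := by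
    have h1 : G - (p : ℤ) ^ (d * m) * D = ∑ u ∈ range (m + 1), ∑ h ∈ range (n + 1),
        c (u * p + h) * ((((p : ℤ) + d) ^ h * (p : ℤ) ^ (n - h) * (p : ℤ) ^ (d * u)) *
          -(X ^ u * Y ^ (m - u) - (X - 1) ^ u * (Y - 1) ^ (m - u))) := by
      rw [hre, hG, ← sum_sub_distrib]
      refine sum_congr rfl fun u _ => ?_
      rw [← sum_sub_distrib]
      refine sum_congr rfl fun h _ => ?_
      ring
    have hpn : (0 : ℤ) ≤ p := by positivity
    have hp1 : (1 : ℤ) ≤ p := by exact_mod_cast hp.one_le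
    set W : ℤ := (((p : ℤ) + d) ^ n * (p : ℤ) ^ (d * m)) *
      ((m : ℤ) * (p : ℤ) ^ ((p + d) * (m - 1))) with hW
    have h2 : ∀ u ∈ range (m + 1), ∀ h ∈ range (n + 1),
        |c (u * p + h) * ((((p : ℤ) + d) ^ h * (p : ℤ) ^ (n - h) * (p : ℤ) ^ (d * u)) *
          -(X ^ u * Y ^ (m - u) - (X - 1) ^ u * (Y - 1) ^ (m - u)))| ≤
        |c (u * p + h)| * W := by
      intro u hu h hh
      have hu' : u ≤ m := Nat.lt_succ_iff.mp (mem_range.mp hu)
      have hh' : h ≤ n := Nat.lt_succ_iff.mp (mem_range.mp hh)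
      rw [abs_mul]
      refine mul_le_mul_of_nonneg_left ?_ (abs_nonneg _)
      have h3 := pow_diff X Y hX1 hXY u (m - u)
      rw [Nat.add_sub_cancel' hu'] at h3
      rw [abs_mul, abs_neg, abs_of_nonneg h3.1,
        abs_of_nonneg (by positivity : (0 : ℤ) ≤ ((p : ℤ) + d) ^ h * (p : ℤ) ^ (n - h) *
          (p : ℤ) ^ (d * u))]
      refine mul_le_mul ?_ ?_ h3.1 (by positivity)
      · refine mul_le_mul ?_ ?_ (by positivity) (by positivity)
        · have h4 : ((p : ℤ) + d) ^ n = ((p : ℤ) + d) ^ h * ((p : ℤ) + d) ^ (n - h) := by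
            rw [← pow_add]; congr 1; omega
          rw [h4]
          refine mul_le_mul_of_nonneg_left ?_ (by positivity)
          exact pow_le_pow_left₀ hpn (by omega) _
        · exact pow_le_pow_right₀ hp1 (Nat.mul_le_mul_left d hu')
      · have h5 : (p : ℤ) ^ ((p + d) * (m - 1)) = Y ^ (m - 1) := by rw [hY, ← pow_mul]
        rw [h5]
        exact h3.2
    have h6 : ∑ u ∈ range (m + 1), ∑ h ∈ range (n + 1), |c (u * p + h)| =
        ∑ s ∈ range (N + 1), |c s| := by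
      have := reindex p m n e hne (fun s => |c s|) (fun k i hk hi => by
        have h2 : c (k * p + n + 1 + i) = 0 := by
          rw [hc]
          simp only
          rw [Q_gap p m n e Q hQ k i hk hi, mul_zero]
        rw [h2, abs_zero])
      rw [hN]
      exact this.symm
    rw [h1]
    calc |∑ u ∈ range (m + 1), ∑ h ∈ range (n + 1),
        c (u * p + h) * ((((p : ℤ) + d) ^ h * (p : ℤ) ^ (n - h) * (p : ℤ) ^ (d * u)) *
          -(X ^ u * Y ^ (m - u) - (X - 1) ^ u * (Y - 1) ^ (m - u)))|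
        ≤ ∑ u ∈ range (m + 1), |∑ h ∈ range (n + 1),
        c (u * p + h) * ((((p : ℤ) + d) ^ h * (p : ℤ) ^ (n - h) * (p : ℤ) ^ (d * u)) *
          -(X ^ u * Y ^ (m - u) - (X - 1) ^ u * (Y - 1) ^ (m - u)))| :=
          abs_sum_le_sum_abs _ _
      _ ≤ ∑ u ∈ range (m + 1), ∑ h ∈ range (n + 1), |c (u * p + h)| * W :=
          sum_le_sum fun u hu => (abs_sum_le_sum_abs _ _).trans
            (sum_le_sum fun h hh => h2 u hu h hh)
      _ = (∑ s ∈ range (N + 1), |c s|) * W := by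
          rw [← h6, sum_mul]
          exact sum_congr rfl fun u _ => by rw [sum_mul]
      _ ≤ (R * 2 ^ N) * W := by
          refine mul_le_mul_of_nonneg_right (sum_abs_le N R c hcb) ?_
          rw [hW]
          positivity
      _ = _ := by rw [hW]; ring
  calc (g : ℤ) ^ m ≤ |G| := hgm
    _ = |(p : ℤ) ^ (d * m) * D + (G - (p : ℤ) ^ (d * m) * D)| := by congr 1; ring
    _ ≤ |(p : ℤ) ^ (d * m) * D| + |G - (p : ℤ) ^ (d * m) * D| := abs_add_le _ _
    _ ≤ (p : ℤ) ^ (d * m) * (R * 3 ^ N * ((d : ℤ) ^ (N - m * e) * (p : ℤ) ^ (m * e))) +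
        (p : ℤ) ^ (d * m) * R *
        (2 ^ N * (((p : ℤ) + d) ^ n * ((m : ℤ) * (p : ℤ) ^ ((p + d) * (m - 1))))) := by
        refine add_le_add ?_ hdiff
        rw [abs_mul, abs_of_nonneg (by positivity : (0 : ℤ) ≤ (p : ℤ) ^ (d * m))]
        exact mul_le_mul_of_nonneg_left hD (by positivity)
    _ = _ := by ring

end H5FT
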