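import Pool.Agent.H5.FT.Form

/-!
# Logarithmic form of the explicit inequality
-/

namespace H5FT

open Finset Nat

theorem log_choose_le (M e : ℕ) (he : 1 ≤ e) (heM : e ≤ M) :
    Real.log (M.choose e) ≤ e * (1 + Real.log ((M : ℝ) / e)) := by
  have he0 : (0 : ℝ) < e := by exact_mod_cast he
  have hM0 : (0 : ℝ) < M := by
    have : 0 < M := by omega
    exact_mod_cast this
  have h1 : ((M.choose e : ℕ) : ℝ) ≤ (M : ℝ) ^ e / (e ! : ℝ) := Nat.choose_le_pow_div e M
  have h2 : (e : ℝ) ^ e / (e ! : ℝ) ≤ Real.exp e := Real.pow_div_factorial_le_exp _ he0.le e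
  have h3 : (0 : ℝ) < (e ! : ℝ) := by exact_mod_cast Nat.factorial_pos e
  have h4 : (0 : ℝ) < (M.choose e : ℕ) := by exact_mod_cast Nat.choose_pos heM
  have h5 : Real.log (M.choose e) ≤ Real.log ((M : ℝ) ^ e / (e ! : ℝ)) := Real.log_le_log h4 h1
  have h6 : Real.log ((e : ℝ) ^ e / (e ! : ℝ)) ≤ e := by
    have := Real.log_le_log (by positivity) h2
    rwa [Real.log_exp] at this
  rw [Real.log_div (by positivity) (by positivity), Real.log_pow] at h5 h6
  rw [Real.log_div hM0.ne' he0.ne']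
  nlinarith

theorem log_three_le : Real.log 3 ≤ 1.2 := by
  rw [Real.log_le_iff_le_exp (by norm_num)]
  have h3 : Real.exp 1.2 = Real.exp 1 * Real.exp 0.2 := by rw [← Real.exp_add]; norm_num
  have h4 := Real.add_one_le_exp (0.2 : ℝ)
  have h5 := Real.exp_one_gt_d9
  rw [h3]
  nlinarith

/-- The logarithmic form. -/
theorem master (p d m e g : ℕ) (hp : p.Prime) (hp3 : 3 ≤ p) (hd : 1 ≤ d) (hdp : d < p)
    (hm : 1 ≤ m) (he : 1 ≤ e) (hep : e + 1 ≤ p) (hg : 1 ≤ g)
    (hg1 : (g : ℤ) ∣ ((p : ℤ) + d) ^ p - 1) (hg2 : (g : ℤ) ∣ (p : ℤ) ^ (p + d) - 1) (a E S : ℝ)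
    (ha : a = (e : ℝ) / p)
    (hE : E = 3 * ((m : ℝ) + 1) + 2 * ((d : ℝ) / p) * m * Real.log p +
      m * a * (1 + Real.log ((m : ℝ) / a)))
    (h1 : E + S ≤ (1 - a) * (((m : ℝ) + 1) * (Real.log p - Real.log d) - Real.log p))
    (h2 : E + S ≤ a * Real.log p) :
    m * Real.log g ≤ p * (m * Real.log p - S) := by
  obtain ⟨n, hn⟩ := Nat.exists_eq_add_of_le hep
  have hne : n + e + 1 = p := by omega
  have hmain := main_ineq p d m n e g hp hp3 hd hdp hne hg1 hg2
  have hp0 : (0 : ℝ) < p := by exact_mod_cast hp.pos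
  have hd0 : (0 : ℝ) < d := by exact_mod_cast hd
  have hm0 : (0 : ℝ) < m := by exact_mod_cast hm
  have hm1 : (1 : ℝ) ≤ m := by exact_mod_cast hm
  have he0 : (0 : ℝ) < e := by exact_mod_cast he
  have hg0 : (0 : ℝ) < g := by exact_mod_cast hg
  have hp3' : (3 : ℝ) ≤ p := by exact_mod_cast hp3
  have ha0 : 0 < a := by rw [ha]; positivity
  have hdp' : (d : ℝ) ≤ p := by exact_mod_cast hdp.le
  have hd1' : (1 : ℝ) ≤ d := by exact_mod_cast hd
  set L := Real.log p with hL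
  set l := Real.log d with hl
  have hl0 : 0 ≤ l := Real.log_nonneg hd1'
  have hlL : l ≤ L := Real.log_le_log hd0 hdp'
  have hL1 : 1 ≤ L := by
    rw [hL, ← Real.log_exp 1]
    exact Real.log_le_log (Real.exp_pos 1) (by linarith [Real.exp_one_lt_three])
  have hLp : L ≤ p := (Real.log_le_sub_one_of_pos hp0).trans (by linarith)
  have hpp : ∀ k : ℕ, (p : ℝ) ^ k = Real.exp (k * L) := fun k => by
    rw [Real.exp_nat_mul, Real.exp_log hp0]
  have hdd : ∀ k : ℕ, (d : ℝ) ^ k = Real.exp (k * l) := fun k => by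
    rw [Real.exp_nat_mul, Real.exp_log hd0]
  have h22 : ∀ k : ℕ, (2 : ℝ) ^ k = Real.exp (k * Real.log 2) := fun k => by
    rw [Real.exp_nat_mul, Real.exp_log (by norm_num)]
  have h33 : ∀ k : ℕ, (3 : ℝ) ^ k = Real.exp (k * Real.log 3) := fun k => by
    rw [Real.exp_nat_mul, Real.exp_log (by norm_num)]
  have hemp : e ≤ m * p := (by omega : e ≤ p).trans (Nat.le_mul_of_pos_left p (by omega))
  have hn_le : (n : ℝ) ≤ p := by exact_mod_cast (by omega : n ≤ p)
  have hmpn : (m : ℝ) * p + n ≤ (m + 1) * p := by rw [add_mul, one_mul]; linarith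
  have hC : Real.log ((m * p).choose e) ≤ e * (1 + Real.log ((m : ℝ) / a)) := by
    have h := log_choose_le (m * p) e he hemp
    have h3 : (((m * p : ℕ) : ℝ) / e) = (m : ℝ) / a := by
      rw [ha]; push_cast; field_simp
    rwa [h3] at h
  set c := Real.log ((m * p).choose e) with hcdef
  have hC0 : (0 : ℝ) < ((m * p).choose e : ℕ) := by exact_mod_cast Nat.choose_pos hemp
  have hCC : ∀ k : ℕ, (((m * p).choose e : ℕ) : ℝ) ^ k = Real.exp (k * c) := fun k => by
    rw [Real.exp_nat_mul, Real.exp_log hC0]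
  have hq : Real.log ((p : ℝ) + d) ≤ L + (d : ℝ) / p := by
    have h3 : ((p : ℝ) + d) = p * (1 + (d : ℝ) / p) := by field_simp
    rw [h3, Real.log_mul hp0.ne' (by positivity)]
    have := Real.log_le_sub_one_of_pos (show 0 < 1 + (d : ℝ) / p by positivity)
    linarith
  set r := Real.log ((p : ℝ) + d) with hrdef
  have hqq : ∀ k : ℕ, ((p : ℝ) + d) ^ k = Real.exp (k * r) := fun k => by
    rw [Real.exp_nat_mul, Real.exp_log (by positivity)]
  have hlogm : Real.log m ≤ m := (Real.log_le_sub_one_of_pos hm0).trans (by linarith)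
  -- real form of the inequality
  have hmainR : (g : ℝ) ^ m ≤ (p : ℝ) ^ (d * m) * (((m * p).choose e : ℕ) : ℝ) ^ m *
      (3 ^ (m * p + n) * ((d : ℝ) ^ (m * p + n - m * e) * (p : ℝ) ^ (m * e))) +
      (p : ℝ) ^ (d * m) * (((m * p).choose e : ℕ) : ℝ) ^ m *
      (2 ^ (m * p + n) * (((p : ℝ) + d) ^ n * ((m : ℝ) * (p : ℝ) ^ ((p + d) * (m - 1))))) := by
    rw [← mul_add]
    exact_mod_cast hmain
  have hlog3 : Real.log 3 ≤ 1.2 := log_three_le
  have hlog2 : Real.log 2 ≤ 0.7 := by linarith [Real.log_two_lt_d9]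
  have hlog3p : 0 ≤ Real.log 3 := Real.log_nonneg (by norm_num)
  have hlog2p : 0 ≤ Real.log 2 := Real.log_nonneg (by norm_num)
  have he_eq : (e : ℝ) = a * p := by rw [ha]; field_simp
  have hn_eq : (n : ℝ) = p - 1 - a * p := by
    have : (n : ℝ) + e + 1 = p := by exact_mod_cast hne
    linarith
  have hn0 : (0 : ℝ) ≤ n := by positivity
  have hme : m * e ≤ m * p + n := (Nat.mul_le_mul_left m (by omega)).trans (Nat.le_add_right _ _)
  have hJ : ((m * p + n - m * e : ℕ) : ℝ) = m * p + n - m * e := by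
    rw [Nat.cast_sub hme]; push_cast; ring
  have hm1' : ((m - 1 : ℕ) : ℝ) = m - 1 := by rw [Nat.cast_sub hm]; simp
  set A0 := p * (m * L - S) with hA0
  -- first term
  have hT1 : (p : ℝ) ^ (d * m) * (((m * p).choose e : ℕ) : ℝ) ^ m *
      (3 ^ (m * p + n) * ((d : ℝ) ^ (m * p + n - m * e) * (p : ℝ) ^ (m * e))) ≤
      Real.exp (A0 - Real.log 2) := by
    rw [hpp (d * m), hpp (m * e), hCC m, hdd, h33, ← Real.exp_add, ← Real.exp_add,
      ← Real.exp_add, ← Real.exp_add]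
    apply Real.exp_le_exp.mpr
    rw [hJ]
    push_cast
    have hmc : (m : ℝ) * c ≤ m * (e * (1 + Real.log ((m : ℝ) / a))) :=
      mul_le_mul_of_nonneg_left hC hm0.le
    have k1 := mul_le_mul_of_nonneg_left h1 hp0.le
    have k2 : ((m : ℝ) * p + n) * Real.log 3 ≤ ((m + 1) * p) * 1.2 := by
      exact mul_le_mul hmpn hlog3 hlog3p (by positivity)
    rw [hE] at k1
    rw [he_eq] at hmc ⊢
    rw [hn_eq] at k2 ⊢
    have e1 : (p : ℝ) * ((d : ℝ) / p) = d := by field_simp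
    have e2 : (p : ℝ) * (2 * ((d : ℝ) / p) * m * L) = 2 * d * m * L := by
      calc (p : ℝ) * (2 * ((d : ℝ) / p) * m * L) = 2 * ((p : ℝ) * ((d : ℝ) / p)) * m * L := by ring
        _ = _ := by rw [e1]
    have e3 : 0 ≤ (d : ℝ) * m * L := by positivity
    have e4 : (m : ℝ) * (a * p * (1 + Real.log ((m : ℝ) / a))) =
      p * (m * a * (1 + Real.log ((m : ℝ) / a))) := by ring
    rw [hA0]
    linarith [k1, k2, hmc, e2, e3, e4, hlL, hLp, hl0, mul_pos hm0 hp0]
  have hT2 : (p : ℝ) ^ (d * m) * (((m * p).choose e : ℕ) : ℝ) ^ m *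
      (2 ^ (m * p + n) * (((p : ℝ) + d) ^ n * ((m : ℝ) * (p : ℝ) ^ ((p + d) * (m - 1))))) ≤
      Real.exp (A0 - Real.log 2) := by
    have hmm : (m : ℝ) * (p : ℝ) ^ ((p + d) * (m - 1)) =
        Real.exp (Real.log m + (((p + d) * (m - 1) : ℕ) : ℝ) * L) := by
      rw [Real.exp_add, ← hpp, Real.exp_log hm0]
    rw [hmm, hpp (d * m), hCC m, hqq, h22, ← Real.exp_add, ← Real.exp_add,
      ← Real.exp_add, ← Real.exp_add]
    apply Real.exp_le_exp.mpr
    push_cast
    rw [hm1']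
    have hmc : (m : ℝ) * c ≤ m * (e * (1 + Real.log ((m : ℝ) / a))) :=
      mul_le_mul_of_nonneg_left hC hm0.le
    have k1 := mul_le_mul_of_nonneg_left h2 hp0.le
    have k2 : ((m : ℝ) * p + n) * Real.log 2 ≤ ((m + 1) * p) * 0.7 := by
      exact mul_le_mul hmpn hlog2 hlog2p (by positivity)
    have k3 : (n : ℝ) * r ≤ n * L + d := by
      have h5 : (n : ℝ) * r ≤ n * (L + (d : ℝ) / p) := mul_le_mul_of_nonneg_left hq hn0
      have h6 : (n : ℝ) * ((d : ℝ) / p) ≤ d := by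
        calc (n : ℝ) * ((d : ℝ) / p) ≤ p * ((d : ℝ) / p) :=
              mul_le_mul_of_nonneg_right hn_le (by positivity)
          _ = d := by field_simp
      linarith
    rw [hE] at k1
    rw [he_eq] at hmc
    rw [hn_eq] at k2 k3 ⊢
    have e1 : (p : ℝ) * ((d : ℝ) / p) = d := by field_simp
    have e2 : (p : ℝ) * (2 * ((d : ℝ) / p) * m * L) = 2 * d * m * L := by
      calc (p : ℝ) * (2 * ((d : ℝ) / p) * m * L) = 2 * ((p : ℝ) * ((d : ℝ) / p)) * m * L := by ring
        _ = _ := by rw [e1]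
    have e4 : (m : ℝ) * (a * p * (1 + Real.log ((m : ℝ) / a))) =
      p * (m * a * (1 + Real.log ((m : ℝ) / a))) := by ring
    have e5 : (d : ℝ) ≤ d * L := le_mul_of_one_le_right hd0.le hL1
    have e6 : (m : ℝ) ≤ m * p := le_mul_of_one_le_right hm0.le (by linarith)
    rw [hA0]
    linarith [k1, k2, k3, hmc, e2, e4, e5, e6, hlogm, mul_pos hm0 hp0]
  have hfin : (g : ℝ) ^ m ≤ Real.exp A0 := by
    have h3 : Real.exp (A0 - Real.log 2) = Real.exp A0 / 2 := by
      rw [Real.exp_sub, Real.exp_log (by norm_num)]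
    rw [h3] at hT1 hT2
    linarith
  have := Real.log_le_log (by positivity) hfin
  rwa [Real.log_exp, Real.log_pow] at this

end H5FT
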