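import Pool.Agent.H5.FT.PartOneCore

/-!
# The range `q ≤ p + p / (log p) ^ (1 + ε)`
-/

namespace H5FT

open Finset Nat Filter

/-- The range `d ≤ p / (log p) ^ (1 + ε)`. -/
theorem part_one (ε : ℝ) (hε : 0 < ε) (hε1 : ε ≤ 1) :
    ∃ P : ℕ, ∀ p d g : ℕ, p.Prime → P ≤ p → 1 ≤ d →
      (d : ℝ) * (Real.log p) ^ (1 + ε) ≤ p → 1 ≤ g →
      (g : ℤ) ∣ ((p : ℤ) + d) ^ p - 1 → (g : ℤ) ∣ (p : ℤ) ^ (p + d) - 1 →
      Real.log g ≤ p * Real.log p - ε ^ 2 / 128 * p * (Real.log p - Real.log d) ∧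
      Real.log p < ε ^ 2 / 128 * p * (Real.log p - Real.log d) := by
  have t1 : Tendsto (fun p : ℕ => Real.log (Real.log (p : ℝ))) atTop atTop :=
    Real.tendsto_log_atTop.comp (Real.tendsto_log_atTop.comp tendsto_natCast_atTop_atTop)
  have t2 : ∀ᶠ p : ℕ in atTop, Real.log (p : ℝ) ≤ ε ^ 2 / 128 * (p : ℝ) := by
    have h1 := (Real.isLittleO_log_id_atTop.comp_tendsto tendsto_natCast_atTop_atTop).bound
      (show (0 : ℝ) < ε ^ 2 / 128 by positivity)
    filter_upwards [h1, eventually_gt_atTop 0] with p h2 hp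
    simp only [Function.comp_apply, id_eq, Real.norm_eq_abs, Nat.abs_cast] at h2
    exact (le_abs_self _).trans h2
  obtain ⟨P, hP⟩ := eventually_atTop.mp (((t1.eventually_ge_atTop (3 / 2)).and
    (t1.eventually_ge_atTop (96 * (11 + Real.log (8 / ε)) / ε ^ 2))).and
    (t2.and (eventually_ge_atTop 3)))
  refine ⟨P, fun p d g hp hpP hd hdL hg hg1 hg2 => ?_⟩
  obtain ⟨⟨k1, k2⟩, k3, k4⟩ := hP p hpP
  refine ⟨one_core p d g ε hε hε1 hp k4 hd hg hg1 hg2 hdL k1 k2, ?_⟩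
  have hp0 : (0 : ℝ) < p := by exact_mod_cast hp.pos
  have hp1 : (1 : ℝ) < p := by exact_mod_cast hp.one_lt
  have hd0 : (0 : ℝ) < d := by exact_mod_cast hd
  have hL0 : 0 < Real.log p := Real.log_pos hp1
  have h1 := Real.log_le_log (by positivity) hdL
  rw [Real.log_mul hd0.ne' (by positivity), Real.log_rpow hL0] at h1
  have h4 : Real.log (Real.log p) ≤ (1 + ε) * Real.log (Real.log p) :=
    le_mul_of_one_le_left (by linarith) (by linarith)
  have h2 : 3 / 2 ≤ Real.log p - Real.log d := by linarith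
  have h3 : ε ^ 2 / 128 * p * (3 / 2) ≤ ε ^ 2 / 128 * p * (Real.log p - Real.log d) :=
    mul_le_mul_of_nonneg_left h2 (by positivity)
  linarith

end H5FT
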