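import Pool.Agent.H5.FT.Log

/-!
# The range `q ≤ p + p / (log p) ^ (1 + ε)`: arithmetic core
-/

namespace H5FT

open Finset Nat Filter

/-- Arithmetic core. -/
theorem one_core (p d g : ℕ) (ε : ℝ) (hε : 0 < ε) (hε1 : ε ≤ 1) (hp : p.Prime) (hp3 : 3 ≤ p)
    (hd : 1 ≤ d) (hg : 1 ≤ g)
    (hg1 : (g : ℤ) ∣ ((p : ℤ) + d) ^ p - 1) (hg2 : (g : ℤ) ∣ (p : ℤ) ^ (p + d) - 1)
    (hdL : (d : ℝ) * (Real.log p) ^ (1 + ε) ≤ p)
    (c1 : 3 / 2 ≤ Real.log (Real.log p))
    (c2 : 96 * (11 + Real.log (8 / ε)) / ε ^ 2 ≤ Real.log (Real.log p)) :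
    Real.log g ≤ p * Real.log p - ε ^ 2 / 128 * p * (Real.log p - Real.log d) := by
  have hp0 : (0 : ℝ) < p := by exact_mod_cast hp.pos
  have hp1 : (1 : ℝ) < p := by exact_mod_cast hp.one_lt
  have hp3' : (3 : ℝ) ≤ p := by exact_mod_cast hp3
  have hd0 : (0 : ℝ) < d := by exact_mod_cast hd
  have hd1 : (1 : ℝ) ≤ d := by exact_mod_cast hd
  have hL0 : 0 < Real.log p := Real.log_pos hp1
  set L := Real.log p with hL
  have hLp : L ≤ p := (Real.log_le_sub_one_of_pos hp0).trans (by linarith)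
  set Λ := Real.log L with hΛ
  have hΛL : Λ ≤ L := (Real.log_le_sub_one_of_pos hL0).trans (by linarith)
  have hL1 : 1 ≤ L := by linarith
  set l := L - Real.log d with hl
  have hlogd0 : 0 ≤ Real.log d := Real.log_nonneg hd1
  have hlL : l ≤ L := by linarith
  -- lower bound for `l`
  have hlΛ : (1 + ε) * Λ ≤ l := by
    have h1 := Real.log_le_log (by positivity) hdL
    rw [Real.log_mul hd0.ne' (by positivity), Real.log_rpow hL0] at h1
    linarith
  have hΛ0 : 0 < Λ := by linarith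
  have hΛε : Λ ≤ (1 + ε) * Λ := le_mul_of_one_le_left hΛ0.le (by linarith)
  have hl1 : 3 / 2 ≤ l := by linarith
  have hl0 : 0 < l := by linarith
  have hdp : d < p := by
    have h1 : Real.log d < Real.log p := by linarith
    exact_mod_cast (Real.log_lt_log_iff hd0 hp0).mp h1
  have hdLp : (d : ℝ) / p * L ≤ 1 := by
    rw [div_mul_eq_mul_div, div_le_one hp0]
    refine le_trans (mul_le_mul_of_nonneg_left ?_ hd0.le) hdL
    calc L = L ^ (1 : ℝ) := (Real.rpow_one _).symm
      _ ≤ L ^ (1 + ε) := Real.rpow_le_rpow_of_exponent_le hL1 (by linarith)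
  -- choice of `m`
  set x : ℝ := (1 + ε / 2) * L / l with hx
  have hx1 : 1 < x := by
    rw [hx, lt_div_iff₀ hl0]
    have : L < (1 + ε / 2) * L := lt_mul_of_one_lt_left hL0 (by linarith)
    linarith
  have hceil : 2 ≤ ⌈x⌉₊ := by
    have : 1 < ⌈x⌉₊ := Nat.lt_ceil.mpr (by simpa using hx1)
    omega
  obtain ⟨m, hm⟩ : ∃ m, ⌈x⌉₊ = m + 1 := ⟨⌈x⌉₊ - 1, by omega⟩
  have hm1 : 1 ≤ m := by omega
  have hm0 : (0 : ℝ) < m := by exact_mod_cast hm1
  have hm1' : (1 : ℝ) ≤ m := by exact_mod_cast hm1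
  have hxm : x ≤ (m : ℝ) + 1 := by
    have := Nat.le_ceil x
    rw [hm] at this
    exact_mod_cast this
  have hmx : (m : ℝ) < x := by
    have : m < ⌈x⌉₊ := by omega
    exact Nat.lt_ceil.mp this
  have hml1 : (1 + ε / 2) * L ≤ (m + 1) * l := by
    rw [hx, div_le_iff₀ hl0] at hxm
    exact hxm
  have hml2 : m * l ≤ (1 + ε / 2) * L := by
    rw [hx, lt_div_iff₀ hl0] at hmx
    exact hmx.le
  have hmL : (m : ℝ) ≤ L := by
    have h1 : m * (3 / 2) ≤ m * l := mul_le_mul_of_nonneg_left hl1 hm0.le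
    have h2 : (1 + ε / 2) * L ≤ 3 / 2 * L := mul_le_mul_of_nonneg_right (by linarith) hL0.le
    linarith
  have hlogm : Real.log m ≤ Λ := Real.log_le_log hm0 hmL
  have hlogm0 : 0 ≤ Real.log m := Real.log_nonneg hm1'
  have hmΛ : m * Λ ≤ (1 - ε / 4) * L := by
    have h1 : m * ((1 + ε) * Λ) ≤ m * l := mul_le_mul_of_nonneg_left hlΛ hm0.le
    have h2 : (1 + ε / 2) ≤ (1 - ε / 4) * (1 + ε) := by
      have h5 : (1 - ε / 4) * (1 + ε) = 1 + ε / 2 + 1 / 4 * (ε * (1 - ε)) := by ring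
      have h6 : 0 ≤ ε * (1 - ε) := mul_nonneg hε.le (by linarith)
      rw [h5]
      linarith
    have h3 : (1 + ε / 2) * L ≤ (1 - ε / 4) * (1 + ε) * L := mul_le_mul_of_nonneg_right h2 hL0.le
    have h4 : (1 + ε) * (m * Λ) ≤ (1 + ε) * ((1 - ε / 4) * L) := by
      calc (1 + ε) * (m * Λ) = m * ((1 + ε) * Λ) := by ring
        _ ≤ (1 - ε / 4) * (1 + ε) * L := h1.trans (hml2.trans h3)
        _ = (1 + ε) * ((1 - ε / 4) * L) := by ring
    exact le_of_mul_le_mul_left h4 (by linarith)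
  -- choice of `e`
  set η : ℝ := ε / 8 with hη
  have hη0 : 0 < η := by positivity
  set e : ℕ := ⌈η * p⌉₊ with he
  have he1 : 1 ≤ e := Nat.one_le_ceil_iff.mpr (by positivity)
  have he0 : (0 : ℝ) < e := by exact_mod_cast he1
  have hege : η * p ≤ e := Nat.le_ceil _
  have hele : (e : ℝ) < η * p + 1 := Nat.ceil_lt_add_one (by positivity)
  have hep : e + 1 ≤ p := by
    have h3 : η * p ≤ 1 / 8 * p := mul_le_mul_of_nonneg_right (by rw [hη]; linarith) hp0.le
    have h1 : (e : ℝ) + 1 < p + 1 := by linarith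
    have h2 : e + 1 < p + 1 := by exact_mod_cast h1
    omega
  set a : ℝ := (e : ℝ) / p with ha
  have ha0 : 0 < a := by positivity
  have haη : η ≤ a := by rw [ha, le_div_iff₀ hp0]; exact hege
  have haη' : a ≤ η + 1 / p := by
    rw [ha, div_le_iff₀ hp0, add_mul, one_div, inv_mul_cancel₀ hp0.ne']
    exact hele.le
  have hpinv : 1 / (p : ℝ) ≤ 1 / 3 := one_div_le_one_div_of_le (by norm_num) hp3'
  have ha34 : a ≤ 1 / 2 := by
    have : η ≤ 1 / 8 := by rw [hη]; linarith
    linarith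
  set κ : ℝ := ε ^ 2 / 64 with hκ
  set K : ℝ := 11 + Real.log (8 / ε) with hK
  have h8ε : 0 ≤ Real.log (8 / ε) := by
    refine Real.log_nonneg ?_
    rw [le_div_iff₀ hε]
    linarith
  have hK0 : 0 < K := by linarith
  -- bound for the error
  set E : ℝ := 3 * ((m : ℝ) + 1) + 2 * ((d : ℝ) / p) * m * L +
      m * a * (1 + Real.log ((m : ℝ) / a)) with hE
  have hE2 : 2 * ((d : ℝ) / p) * m * L ≤ 2 * m := by
    calc 2 * ((d : ℝ) / p) * m * L = 2 * m * ((d : ℝ) / p * L) := by ring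
      _ ≤ 2 * m * 1 := mul_le_mul_of_nonneg_left hdLp (by positivity)
      _ = 2 * m := mul_one _
  have hE1 : m * a * (1 + Real.log ((m : ℝ) / a)) ≤
      η * (m * Λ) + 1 + m * (1 + Real.log (8 / ε)) := by
    rw [Real.log_div hm0.ne' ha0.ne']
    have h1 : -Real.log a ≤ Real.log (8 / ε) := by
      have h2 : Real.log η ≤ Real.log a := Real.log_le_log hη0 haη
      have h3 : Real.log (8 / ε) = -Real.log η := by
        rw [← Real.log_inv, hη, inv_div]
      linarith
    have h4 : a * (1 - Real.log a) ≤ 1 * (1 + Real.log (8 / ε)) :=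
      mul_le_mul (by linarith) (by linarith)
        (by have := Real.log_nonpos ha0.le (by linarith : a ≤ 1); linarith) (by norm_num)
    have h5 : a * (m * Real.log m) ≤ η * (m * Λ) + 1 := by
      have h6 : m * Real.log m ≤ m * Λ := mul_le_mul_of_nonneg_left hlogm hm0.le
      have h7 : 0 ≤ m * Real.log m := by positivity
      have h8 : a * (m * Real.log m) ≤ (η + 1 / p) * (m * Real.log m) :=
        mul_le_mul_of_nonneg_right haη' h7
      have h9 : 1 / (p : ℝ) * (m * Real.log m) ≤ 1 := by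
        rw [one_div, inv_mul_le_iff₀ hp0, mul_one]
        refine h6.trans (hmΛ.trans ?_)
        have : (1 - ε / 4) * L ≤ 1 * L := mul_le_mul_of_nonneg_right (by linarith) hL0.le
        linarith
      have h10 : η * (m * Real.log m) ≤ η * (m * Λ) := mul_le_mul_of_nonneg_left h6 hη0.le
      have h11 : (η + 1 / p) * (m * Real.log m) =
        η * (m * Real.log m) + 1 / (p : ℝ) * (m * Real.log m) := by ring
      linarith
    have h12 : m * a * (1 + (Real.log m - Real.log a)) =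
        a * (m * Real.log m) + m * (a * (1 - Real.log a)) := by ring
    have h13 : m * (a * (1 - Real.log a)) ≤ m * (1 * (1 + Real.log (8 / ε))) :=
      mul_le_mul_of_nonneg_left h4 hm0.le
    linarith
  have hKm : K * m ≤ η * ε / 8 * L := by
    have h1 : 96 * K / ε ^ 2 * m ≤ Λ * m := mul_le_mul_of_nonneg_right c2 hm0.le
    have h2 : 96 * K / ε ^ 2 * m ≤ L := by
      have h3 : (1 - ε / 4) * L ≤ 1 * L := mul_le_mul_of_nonneg_right (by linarith) hL0.le
      linarith
    have h4 : K * m = ε ^ 2 / 96 * (96 * K / ε ^ 2 * m) := by field_simp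
    rw [h4]
    calc ε ^ 2 / 96 * (96 * K / ε ^ 2 * m) ≤ ε ^ 2 / 96 * L :=
          mul_le_mul_of_nonneg_left h2 (by positivity)
      _ ≤ ε ^ 2 / 64 * L := mul_le_mul_of_nonneg_right (by
          have : 0 < ε ^ 2 := by positivity
          linarith) hL0.le
      _ = η * ε / 8 * L := by rw [hη]; ring
  have hEK : E ≤ η * ((1 - ε / 4) * L) + K * m := by
    have h1 : η * (m * Λ) ≤ η * ((1 - ε / 4) * L) := mul_le_mul_of_nonneg_left hmΛ hη0.le
    have h2 : K * m = 11 * m + m * Real.log (8 / ε) := by rw [hK]; ring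
    rw [hE]
    linarith
  have hES : E + κ * L ≤ η * L := by
    have h1 : η * ((1 - ε / 4) * L) = η * L - η * ε / 4 * L := by ring
    have h2 : κ * L = η * ε / 8 * L := by rw [hκ, hη]; ring
    have h3 : η * ε / 4 * L = η * ε / 8 * L + η * ε / 8 * L := by ring
    linarith
  have hηL : η * L ≤ (1 - a) * (((m : ℝ) + 1) * l - L) := by
    have h1 : ε / 2 * L ≤ ((m : ℝ) + 1) * l - L := by linarith
    calc η * L ≤ (1 / 2) * (ε / 2 * L) := by
          rw [hη]
          have : 0 < ε * L := by positivity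
          linarith
      _ ≤ (1 - a) * (((m : ℝ) + 1) * l - L) :=
          mul_le_mul (by linarith) h1 (by positivity) (by linarith)
  have key := master p d m e g hp hp3 hd hdp hm1 he1 hep hg hg1 hg2 a E (κ * L) ha hE
    (hES.trans hηL) (hES.trans (mul_le_mul_of_nonneg_right haη hL0.le))
  have h1 : m * Real.log g ≤ m * (p * L - κ / 2 * p * l) := by
    refine key.trans ?_
    have h2 : m * l ≤ 2 * L := by
      refine hml2.trans (mul_le_mul_of_nonneg_right (by linarith) hL0.le)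
    have h3 : κ / 2 * p * (m * l) ≤ κ / 2 * p * (2 * L) :=
      mul_le_mul_of_nonneg_left h2 (by positivity)
    have h4 : m * (p * L - κ / 2 * p * l) = p * (m * L) - κ / 2 * p * (m * l) := by ring
    have h5 : p * (m * L - κ * L) = p * (m * L) - κ / 2 * p * (2 * L) := by ring
    rw [h4, h5]
    linarith
  have h2 := le_of_mul_le_mul_left h1 hm0
  have h3 : κ / 2 = ε ^ 2 / 128 := by rw [hκ]; ring
  rw [h3] at h2
  exact h2

end H5FT
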